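import Pool.Agent.Y787.CStrat
import Pool.Agent.H53.AS.Pts

/-!
# Algebraic relations over the field of exponentials: the linear spaces through points with logarithmic
coordinates

If the conjecture is true, `ℚ`-linearly independent logarithms of algebraic numbers are algebraically
independent over the field generated by all `e ^ α`, `α` algebraic.  Then a point `y = (y_1, ..., y_m)` whose
coordinates are linear forms in `1` and logarithms of algebraic numbers is on a variety `V` with coefficients
in this field only if `V` contains a translate through `y` of a linear space defined over the field `ℚ̄` of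
the algebraic numbers, and the more so if it is on `V_t` for an algebraic point `t` of the parameter space of a
family.  We prove for arbitrary varieties `V_t ⊆ 𝔸^m` with complex coefficients and with `τ` algebraic
parameters, for every `ρ ≤ m`: let `B` be the set of the points `y` which are on `V_t` for some algebraic `t`
such that no translate `y + R` of an algebraic linear space `R` of dimension greater than `ρ` is contained
in `V_t`.

* Dimension.  If `W` is a space of finite dimension `N` over `ℚ̄` which consists of linear forms in `1` and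
  logarithms of algebraic numbers, then `B ∩ W ^ m` is contained in an algebraic subset of `W ^ m` of dimension
  at most `ρ N + (m - ρ) (m - 1) + τ`.  For `ρ = τ = 0` this is `m (m - 1)`, a number independent of `W`, of the
  degree and of the field of definition of `V`.
* Counting.  If `l_1, ..., l_N` are logarithms of algebraic numbers which are linearly independent over `ℚ`,
  then for at most `κ H ^ (ρ N + (m - ρ) (m - 1) + τ)` integer `m × N` matrices `A` with entries of absolute
  value at most `H` the point `A l` is in `B`.

`PointsOnComplexVarieties` of the starting files needs the assumption that the space of all algebraic tangent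
vectors of `V_t` at `y` has dimension at most `ρ`, which is stronger than the assumption on translates (the
vectors of `R` are tangent to `V_t` at `y`), and has `m (m - 1)` in the place of `(m - ρ) (m - 1)`.  The
base of the proof is `Pool.Agent.Y787.AS` of the starting library (derivations of germs along ultrafilters and
the hyperplane case of the linear subgroup theorem), where it was handed in only for the determinantal
varieties (`MP_1f047c_nt`).
-/

set_option autoImplicit false

namespace Pool.Agent.Results.MP_c82530_nt.LinearSpacesThroughPoints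

open MvPolynomial

/-- The space of all linear combinations, with algebraic coefficients, of `1` and of logarithms of
algebraic numbers. -/
noncomputable def LogForms : Submodule (algebraicClosure ℚ ℂ) ℂ :=
  Submodule.span (algebraicClosure ℚ ℂ) ({1} ∪ {z : ℂ | IsAlgebraic ℚ (Complex.exp z)})

/-- `y` is on the variety `F (y, t) = 0` for some algebraic `t`, but no translate `y + R` with a linear
space `R` of dimension greater than `ρ`, spanned by algebraic vectors, is contained in the variety
`F (., t) = 0`. -/
def OnFamily {m τ r : ℕ} (F : Fin r → MvPolynomial (Fin m ⊕ Fin τ) ℂ) (ρ : ℕ) (y : Fin m → ℂ) : Prop :=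
  ∃ t : Fin τ → algebraicClosure ℚ ℂ,
    (∀ s, eval (Sum.elim y fun a => (t a : ℂ)) (F s) = 0) ∧
    ¬ ∃ R : Submodule (algebraicClosure ℚ ℂ) (Fin m → algebraicClosure ℚ ℂ),
      ρ < Module.finrank (algebraicClosure ℚ ℂ) R ∧
      ∀ s, ∀ c ∈ Submodule.span ℂ {x : Fin m → ℂ | ∃ v ∈ R, x = fun i => (v i : ℂ)},
        eval (Sum.elim (fun i => y i + c i) fun a => (t a : ℂ)) (F s) = 0

/-- **Main result.** -/
theorem result {m τ r ρ : ℕ} (hρ : ρ ≤ m) (F : Fin r → MvPolynomial (Fin m ⊕ Fin τ) ℂ) :
    -- dimension
    (∀ (W : Submodule (algebraicClosure ℚ ℂ) ℂ) [FiniteDimensional (algebraicClosure ℚ ℂ) W],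
      W ≤ LogForms →
      ∀ φ : Fin (ρ * Module.finrank (algebraicClosure ℚ ℂ) W + (m - ρ) * (m - 1) + τ + 1) →
        ((Fin m → W) →ₗ[algebraicClosure ℚ ℂ] algebraicClosure ℚ ℂ),
      ∃ P : MvPolynomial (Fin (ρ * Module.finrank (algebraicClosure ℚ ℂ) W +
          (m - ρ) * (m - 1) + τ + 1)) (algebraicClosure ℚ ℂ), P ≠ 0 ∧
        ∀ y : Fin m → W, OnFamily F ρ (fun i => (y i : ℂ)) → eval (fun i => φ i y) P = 0) ∧
    -- counting
    ∀ (N : ℕ) (l : Fin N → ℂ), (∀ j, IsAlgebraic ℚ (Complex.exp (l j))) → LinearIndependent ℚ l →
      ∃ κ : ℕ, ∀ H : ℕ, 1 ≤ H →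
        {A : Fin m → Fin N → ℤ | (∀ i j, |A i j| ≤ H) ∧
          OnFamily F ρ (fun i => ∑ j, (A i j : ℂ) * l j)}.ncard ≤
            κ * H ^ (ρ * N + (m - ρ) * (m - 1) + τ) := by
  have := Pool.Agent.Y787.uncountable_complex
  have hcountable : Countable (algebraicClosure ℚ ℂ) :=
    ((Algebraic.countable ℚ ℂ).mono
      (fun x hx => (mem_algebraicClosure_iff.1 hx : IsAlgebraic ℚ x)) :
        ((algebraicClosure ℚ ℂ : Set ℂ)).Countable).to_subtype
  have hH : Pool.Agent.W254.PA.Hyp Pool.Agent.H301R2.SSE.Lt := Pool.Agent.Y787.hypC_complex.hyp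
  refine ⟨?_, ?_⟩
  · intro W _ hW φ
    obtain ⟨P, h1, h2⟩ := Pool.Agent.H53.AS.fam_dim' (k := algebraicClosure ℚ ℂ) (Cc := ℂ)
      hH Pool.Agent.Y787.AS.wts_pt W hW hρ F φ
    refine ⟨P, h1, ?_⟩
    rintro y ⟨t, h3, h4⟩
    exact h2 y t h3 h4
  · intro N l halg hli
    obtain ⟨κ, h1⟩ := Pool.Agent.H53.AS.count_fam (k := algebraicClosure ℚ ℂ) (Cc := ℂ)
      hH Pool.Agent.Y787.AS.wts_pt hρ l (fun j => Pool.Agent.H301R2.SSE.Lt_log (halg j))
      (Pool.Agent.Y787.li_of_consC l (Pool.Agent.Y787.li_consC l halg hli)) F
    refine ⟨κ, fun H hH' => ?_⟩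
    refine le_trans (le_of_eq ?_) (h1 H hH')
    congr 1

end Pool.Agent.Results.MP_c82530_nt.LinearSpacesThroughPoints
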