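import Pool.Agent.Q23.AQ.Ex

/-!
# Gel'fond's conjecture, in bounded degree, at almost all rational points: exponentials, logarithms and `π`

Let `α_1, …, α_m` be real numbers linearly independent over `ℚ` and `x_1, …, x_k` distinct real numbers. For all but few
rational numbers `q` of `[a, b]` (and for all but few `n`-tuples of them simultaneously) the numbers `π`, `e^(α_i q)` and
`log (q + x_j)` satisfy no polynomial relation, not even an approximate one, of given degree and polynomially bounded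
height. If the `α_i` and `x_j` are algebraic, these are exponentials and logarithms of algebraic numbers.
-/

set_option autoImplicit false

open Set Filter Topology

namespace Pool.Agent.Results.MP_c82530_nt.RationalPoints

/-- The numbers `π` and, for `l = 1, …, n`, `e^(α_i q_l)`, `i = 1, …, m`, and `log (q_l + x_j)`, `j = 1, …, k`. -/
noncomputable def values {m k n : ℕ} (α : Fin m → ℝ) (x : Fin k → ℝ) (q : Fin n → ℚ) :
    Option (Fin n × (Fin m ⊕ Fin k)) → ℝ
  | none => Real.pi
  | some (l, Sum.inl i) => Real.exp (α i * q l)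
  | some (l, Sum.inr j) => Real.log (q l + x j)

/-- The `n`-tuples of rational numbers in `[a, b]` with denominators at most `T` for which some nonzero polynomial in
`(m + k) n + 1` variables with integer coefficients of absolute value at most `T ^ A`, of degree at most `d` in each
variable, takes at the numbers `values α x q` a value of absolute value at most `T ^ (-B)`. -/
def Exceptional {m k : ℕ} (α : Fin m → ℝ) (x : Fin k → ℝ) (n d : ℕ) (a b A B T : ℝ) : Set (Fin n → ℚ) :=
  {q | (∀ j, a ≤ q j ∧ q j ≤ b ∧ ((q j).den : ℝ) ≤ T) ∧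
    ∃ P : MvPolynomial (Option (Fin n × (Fin m ⊕ Fin k))) ℤ, P ≠ 0 ∧ (∀ z, P.degreeOf z ≤ d) ∧
      (∀ s, |((P.coeff s : ℤ) : ℝ)| ≤ T ^ A) ∧ |MvPolynomial.aeval (values α x q) P| ≤ T ^ (-B)}

/-- Let `α_1, …, α_m` be linearly independent over `ℚ`, `x_1, …, x_k` distinct, `a < b`, `a + x_j > 0`, let `n ≥ 1`, `d`
and `A ≥ 0` be given and let `β > 2 - 2 / ((d + 1)^((m + k) n + 1) + 1)`. There are `B` and `C` such that for all
`T ≥ 1` the number of exceptional `n`-tuples is at most `C T^(2 (n - 1) + β)` (whereas the number of all `n`-tuples of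
rational numbers in `[a, b]` with denominators at most `T` is about `T ^ (2 n)`). -/
theorem result (m k : ℕ) (α : Fin m → ℝ) (hα : LinearIndependent ℚ α) (x : Fin k → ℝ) (hx : Function.Injective x)
    (n d : ℕ) (hn : 1 ≤ n) (a b : ℝ) (hab : a < b) (hax : ∀ j, 0 < a + x j) (A β : ℝ) (hA : 0 ≤ A)
    (hβ : 2 - 2 / (((d : ℝ) + 1) ^ ((m + k) * n + 1) + 1) < β) :
    ∃ B C : ℝ, ∀ T : ℝ, 1 ≤ T → (Exceptional α x n d a b A B T).Finite ∧
      ((Exceptional α x n d a b A B T).ncard : ℝ) ≤ C * T ^ (2 * ((n : ℝ) - 1) + β) := by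
  have hα' : ∀ z : Fin m → ℤ, ∑ i, (z i : ℝ) * α i = 0 → z = 0 := by
    intro z hz
    have h1 := Fintype.linearIndependent_iff.1 hα (fun i => (z i : ℚ)) (by
      rw [← hz]
      refine Finset.sum_congr rfl fun i _ => ?_
      rw [Rat.smul_def]
      push_cast
      ring)
    funext i
    exact_mod_cast h1 i
  obtain ⟨c, hc⟩ : ∃ c : ℝ, c < a ∧ ∀ j, c < -x j := by
    refine ⟨-(|a| + 1 + ∑ j, |x j|), ?_, fun j => ?_⟩
    · have h1 : 0 ≤ ∑ j, |x j| := Finset.sum_nonneg fun j _ => abs_nonneg _
      have h2 := neg_abs_le a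
      linarith
    · have h1 : |x j| ≤ ∑ j, |x j| := Finset.single_le_sum (f := fun j => |x j|) (fun _ _ => abs_nonneg _) (Finset.mem_univ j)
      have h2 := le_abs_self (x j)
      have h3 := abs_nonneg a
      linarith
  have hind := Q23.AQ.comb_log (d := d) (Q23.AQ.ef α) c a b hc.1 hab (fun i t _ => Q23.AQ.ef_an α i t)
    (Q23.AQ.ef_ind α hα' a b hab) x hx hc.2 hax
  have hcard : Fintype.card (Fin m ⊕ Fin k) = m + k := by
    rw [Fintype.card_sum, Fintype.card_fin, Fintype.card_fin]
  have han : ∀ p, AnalyticOnNhd ℝ (Sum.elim (Q23.AQ.ef α) (TH659.AQ.lf x) p) (Icc a b) := by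
    rintro (i | j) t ht
    · exact Q23.AQ.ef_an α i t
    · exact TH659.AQ.lf_an x j (by linarith [hax j, ht.1])
  obtain ⟨B, C, h⟩ := TH659.AQ.polysR (n := n) (d := d) (Sum.elim (Q23.AQ.ef α) (TH659.AQ.lf x)) a b hab han hind hn A β
    hA (by rw [hcard]; exact hβ)
  refine ⟨B, C, fun T hT => ?_⟩
  have hv : ∀ q : Fin n → ℚ, values α x q = TH659.AQ.vR (Sum.elim (Q23.AQ.ef α) (TH659.AQ.lf x)) q := by
    intro q
    funext z
    rcases z with _ | ⟨l, i | j⟩ <;> rfl
  have hE : Exceptional α x n d a b A B T = TH659.AQ.ExR d (Sum.elim (Q23.AQ.ef α) (TH659.AQ.lf x)) a b A B T := by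
    ext q
    simp only [Exceptional, TH659.AQ.ExR, hv]
  rw [hE]
  exact h T hT

end Pool.Agent.Results.MP_c82530_nt.RationalPoints
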