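import Pool.Agent.Q311.KO.Gel
import Pool.Agent.H340R2.LW

/-!
# Gel'fond's conjecture, in bounded degree, at almost all values of polynomials in several variables over all number fields

Gel'fond's conjecture says that the numbers `e ^ α_i`, `log β_j` are algebraically independent if the algebraic numbers
`α_i` and the logarithms `log β_j` are linearly independent over `ℚ`. We consider

`α_i = ψ_i(s)`, `β_j = φ_j(s)`

where `ψ_i` and `φ_j` are polynomials in several variables (with algebraic coefficients, say) and `s` runs through the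
points with coordinates in number fields. Suppose that no nontrivial integral combination of the `ψ_i` is constant, and
that each `φ_j` has an irreducible factor which does not divide the others (for instance, the `φ_j` are pairwise
relatively prime and not constant). The logarithms `log φ_j(s)` are the values of any analytic branches on a connected open
set `U`.

There are bounds `ω T → ∞` such that at all points `s` in `U` with coordinates in number fields `K` of degree at most `ω T`
and of height at most `T` outside few hypersurfaces of small degree, the numbers `e ^ ψ_i(s)`, `log φ_j(s)` and also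
`2 π i` satisfy no nontrivial relation of degree at most `ω T` with coefficients in the ring of integers of `K` of size at
most `T ^ ω T`; for the numbers without `2 π i` the coefficients may be combinations of arbitrary complex constants `ξ`.
(The conditions of linear independence of Gel'fond's conjecture may fail at the points of some hypersurfaces, therefore
exceptional hypersurfaces cannot be avoided.)
-/

set_option autoImplicit false

open Filter NumberField Pool.Agent.Q311.MV Pool.Agent.Q311.KO
open Pool.Agent.Y890.MV (InnerM)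

namespace Pool.Agent.Results.MP_c82530_nt.PolynomialValues

/-- the number `2 π i` -/
noncomputable def tpi : ℂ := 2 * Real.pi * Complex.I

/-- the polynomial in the `y i`, of degree at most `k` in each of them, with the coefficients `∑ a, c l a * ξ a` -/
noncomputable def value {ι : Type} [Fintype ι] [DecidableEq ι] {k : ℕ} (c : (ι → Fin (k + 1)) → Fin k → ℂ)
    (ξ : Fin k → ℂ) (y : ι → ℂ) : ℂ :=
  ∑ l : ι → Fin (k + 1), (∑ a, c l a * ξ a) * ∏ i, y i ^ (l i : ℕ)

/-- There is no nontrivial relation of degree at most `k` in each `y i` with coefficients of the form `∑ a, c l a * ξ a`,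
and none with coefficients of the form `∑ a, c l a * (2 π i) ^ a` (that is between the `y i` and `2 π i`), where the `c l a`
are integers of `K` with all conjugates at most `T ^ k`. -/
def Independent {ι : Type} [Fintype ι] [DecidableEq ι] (k : ℕ) (K : Type) [Field K] [NumberField K] (io : K →+* ℂ)
    (ξ : Fin k → ℂ) (T : ℝ) (y : ι → ℂ) : Prop :=
  ∀ c : (ι → Fin (k + 1)) → Fin k → 𝓞 K, (∀ l a (φ : K →+* ℂ), ‖φ (c l a : K)‖ ≤ T ^ k) →
    (value (fun l a => io (c l a : K)) ξ y = 0 → ∀ l, ∑ a, io (c l a : K) * ξ a = 0) ∧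
    (value (fun l a => io (c l a : K)) (fun a => tpi ^ (a : ℕ)) y = 0 → ∀ l a, c l a = 0)

/-- the numbers `exp (ψ i (s))` and `l j (s)` -/
noncomputable def numbers {X κ : Type} {n : ℕ} (ψ : κ → MvPolynomial X ℂ) (l : Fin n → (X → ℂ) → ℂ) (s : X → ℂ) :
    κ ⊕ Fin n → ℂ :=
  Sum.elim (fun i => Complex.exp (MvPolynomial.eval s (ψ i))) fun j => l j s

/-- the points with coordinates in `K` of height at most `T`, of norm at most `k` and at distance at least `1 / k` from the
complement of `U`, at which the numbers `exp (ψ i (s))` and `l j (s)` are not independent -/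
def Exceptional {X κ : Type} [Fintype X] [Fintype κ] [DecidableEq κ] {n : ℕ} (U : Set (X → ℂ))
    (ψ : κ → MvPolynomial X ℂ) (l : Fin n → (X → ℂ) → ℂ)
    (k : ℕ) (K : Type) [Field K] [NumberField K] (io : K →+* ℂ) (ξ : Fin k → ℂ) (T : ℝ) : Set (X → K) :=
  {s | (∀ j, Y120.HtLe K T (s j)) ∧ (fun j => io (s j)) ∈ InnerM U k ∧
    ¬ Independent k K io ξ T (numbers ψ l (fun j => io (s j)))}

/-- the powers of `2 π i` are independent over the algebraic numbers -/
theorem tpi_indep {k : ℕ} (K : Type) [Field K] [NumberField K] (io : K →+* ℂ) (c : Fin k → K)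
    (h : ∑ a, io (c a) * tpi ^ (a : ℕ) = 0) : ∀ a, c a = 0 := by
  classical
  let p : Polynomial K := ∑ a : Fin k, Polynomial.monomial (a : ℕ) (c a)
  have hp : Polynomial.eval₂ io tpi p = 0 := by
    rw [Polynomial.eval₂_finsetSum]
    rw [← h]
    refine Finset.sum_congr rfl fun a _ => ?_
    rw [Polynomial.eval₂_monomial]
  have htr : Transcendental ℚ tpi := by
    intro h1
    have h2 : IsAlgebraic ℚ (tpi ^ 2) := h1.pow 2
    have h3 : tpi ^ 2 = algebraMap ℚ ℂ (-4) * (Real.pi : ℂ) ^ 2 := by
      unfold tpi
      rw [mul_pow, mul_pow, Complex.I_sq]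
      norm_num
    have h4 : (Real.pi : ℂ) ^ 2 = algebraMap ℚ ℂ (-4)⁻¹ * tpi ^ 2 := by
      rw [h3, ← mul_assoc, ← map_mul]
      norm_num
    have h5 : IsAlgebraic ℚ ((Real.pi : ℂ) ^ 2) := by
      rw [h4]
      exact (isAlgebraic_algebraMap _).mul h2
    exact Pool.Agent.H340R2.LW.transcendental_pi_complex (h5.of_pow two_pos)
  have hp0 : p = 0 := by
    by_contra hne
    apply htr
    let _ : Algebra K ℂ := io.toAlgebra
    have h6 : IsAlgebraic K tpi := ⟨p, hne, hp⟩
    have : IsScalarTower ℚ K ℂ := IsScalarTower.of_algebraMap_eq fun q => by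
      rw [eq_ratCast]
      exact (map_ratCast (algebraMap K ℂ) q).symm.trans (by rw [eq_ratCast])
    exact h6.restrictScalars ℚ
  intro a
  have h7 : p.coeff (a : ℕ) = c a := by
    rw [Polynomial.finsetSum_coeff, Finset.sum_eq_single a]
    · rw [Polynomial.coeff_monomial, if_pos rfl]
    · intro b _ hb
      rw [Polynomial.coeff_monomial, if_neg (fun h8 => hb (Fin.ext h8))]
    · intro h8
      exact absurd (Finset.mem_univ a) h8
  rw [← h7, hp0, Polynomial.coeff_zero]

/-- Let `ψ i`, `i ∈ κ`, be complex polynomials in the variables `X` such that no nontrivial combination with integral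
coefficients is constant, and let `φ 0, …, φ (n - 1)` be polynomials such that each of them has an irreducible factor which
does not divide the others. Let `l j` be analytic on the connected open set `U` with `exp (l j) = φ j`. Then there is
`ω → ∞` such that for all large `T`, all number fields `K` of degree at most `ω T`, all embeddings and all complex numbers
`ξ a`, `a < ω T`: the exceptional points lie on at most `T ^ (1 / ω T)` hypersurfaces of degree at most `T ^ (1 / ω T)`, and
there are at most `T ^ (1 / ω T) * N ^ (|X| - 1)` of them, `N` being the number of elements of `K` of height at most `T`. -/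
theorem result {X κ : Type} [Fintype X] [DecidableEq X] [Nonempty X] [Fintype κ] [DecidableEq κ] (n : ℕ)
    (ψ : κ → MvPolynomial X ℂ) (hψ : ∀ (m : κ → ℤ) (c : ℂ), ∑ i, m i • ψ i = MvPolynomial.C c → m = 0)
    (φ : Fin n → MvPolynomial X ℂ) (hφ : ∀ j, ∃ p, Irreducible p ∧ p ∣ φ j ∧ ∀ j', j' ≠ j → ¬ p ∣ φ j')
    (U : Set (X → ℂ)) (hU : IsPreconnected U) (hUo : IsOpen U) (hne : U.Nonempty) (l : Fin n → (X → ℂ) → ℂ)
    (hl : ∀ j, AnalyticOnNhd ℂ (l j) U) (hexp : ∀ j, ∀ x ∈ U, Complex.exp (l j x) = MvPolynomial.eval x (φ j)) :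
    ∃ (ω : ℝ → ℕ) (T₀ : ℝ), Tendsto ω atTop atTop ∧ Monotone ω ∧ ∀ T, T₀ ≤ T → 0 < ω T ∧
      ∀ (K : Type) [Field K] [NumberField K], Module.finrank ℚ K ≤ ω T → ∀ (io : K →+* ℂ) (ξ : Fin (ω T) → ℂ),
        Y124.Cov ⌊T ^ ((ω T : ℝ)⁻¹)⌋₊ ⌊T ^ ((ω T : ℝ)⁻¹)⌋₊
          ((fun (s : X → K) j => io (s j)) '' Exceptional U ψ l (ω T) K io ξ T) ∧
        (Exceptional U ψ l (ω T) K io ξ T).Finite ∧
        ((Exceptional U ψ l (ω T) K io ξ T).ncard : ℝ) ≤
          T ^ ((ω T : ℝ)⁻¹) * ({x : K | Y120.HtLe K T x}.ncard : ℝ) ^ (Fintype.card X - 1) := by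
  classical
  have hind := gel_indep hU hUo hne ψ hψ φ hφ l hl hexp
  obtain ⟨ω, T₀, h1, h2, h3⟩ := Pool.Agent.Q311.MV.main hU hUo hne
    (an_elim (fun k => exp_an (poly_an (ψ k))) hl) hind (fun _ a => tpi ^ (a : ℕ))
  refine ⟨ω, T₀, h1, h2, fun T hT => ⟨(h3 T hT).1, fun K _ _ hK io ξ => ?_⟩⟩
  obtain ⟨h4, h5, h6⟩ := (h3 T hT).2 K hK io ξ
  have hfun : ∀ s : X → ℂ, (fun i => Sum.elim (fun k x => Complex.exp (MvPolynomial.eval x (ψ k))) l i s) =
      numbers ψ l s := by
    intro s
    funext i
    rcases i with i | i <;> rfl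
  simp only [hfun] at h4 h5 h6
  have hsub : Exceptional U ψ l (ω T) K io ξ T ⊆
      {s : X → K | (∀ j, Y120.HtLe K T (s j)) ∧ (fun j => io (s j)) ∈ InnerM U (ω T) ∧
            ¬ (Free (ω T) K io ξ T (numbers ψ l (fun j => io (s j))) ∧
              Free (ω T) K io (fun a => tpi ^ (a : ℕ)) T (numbers ψ l (fun j => io (s j))))} := by
    rintro s ⟨hs1, hs2, hs3⟩
    refine ⟨hs1, hs2, fun hf => hs3 fun c hc => ⟨fun hv => hf.1 c hc hv, fun hv => ?_⟩⟩
    intro l a
    have h7 := hf.2 c hc hv l
    have h8 := tpi_indep K io (fun a => (c l a : K)) h7 a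
    exact_mod_cast h8
  exact ⟨h4.mono le_rfl le_rfl (Set.image_mono hsub), h5.subset hsub,
    le_trans (by exact_mod_cast Set.ncard_le_ncard hsub h5) h6⟩

end Pool.Agent.Results.MP_c82530_nt.PolynomialValues
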